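import Pool.Agent.N536.HK.Main

/-!
# The sign conjecture and the even and odd direct summands of motives

Let `W` be a Weil cohomology theory with coefficient field `K` (crystalline cohomology over a perfect
field, say), on a class of smooth proper varieties closed under products. For a variety `Y` let
`b(Y) = cohDim W Y` be the dimension of its whole cohomology, and let `c(Y) = evenOddDim W Y` be the
dimension of the largest direct summand of the motive `h(Y)` (homological equivalence, coefficients in
`K`) which is the sum of an even and an odd motive: the largest number `rank e₀ + rank e₁`, where `e₀`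
and `e₁` are idempotent `K`-combinations of correspondences of degree zero, `e₀` kills the odd and `e₁`
the even cohomology of `Y`. The sign conjecture `C⁺(Y)` holds if and only if `c(Y) = b(Y)`, that is, if
`h(Y)` itself is the sum of an even and an odd motive.

**Theorem.** For all `Y`, `X`

  `c(Y × X) ≤ c(Y) c(X) + (b(Y) - c(Y)) (b(X) - c(X))`.

If `C⁺(X)` is false, then for all `n ≥ 1`

  `c(X^n) ≤ (b(X)^n + (b(X) - 2)^n) / 2` or `c(X^(n+1)) ≤ (b(X)^(n+1) + (b(X) - 2)^(n+1)) / 2`,

where `b(X)^n = b(X^n)`. So the sign conjecture for `X` is equivalent to the statement that for all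
large `n` 51 percent of the motive of `X^n`, a direct summand of dimension at least `0.51 b(X^n)`, is
the sum of an even and an odd motive, and even the share `1 / 2 + f(b(X^n))` suffices, if
`f(y) y^κ → ∞` for all `κ > 0`, for example `f(y) = 1 / log y`. The sign conjecture for all varieties
is equivalent to 51 percent of it for each variety.

The proof. Call an algebraic operator pure if it kills the odd or the even cohomology. There are a
sum `ε_Y` of an even and an odd idempotent, algebraic, such that `1 - ε_Y` has trace zero against all
pure operators, and its rank is `c(Y)`: if `q` is algebraic and has trace zero against all pure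
operators and `e` is the sum of an even and an odd algebraic idempotent, then all powers of `q e`
have trace zero, so `q e` is nilpotent and `1 - q` is injective on the image of `e`. Now
`q = ε_Y ⊗ (1 - ε_X) + (1 - ε_Y) ⊗ ε_X` has trace zero against all pure operators `a` on `Y × X`: the
partial trace of `a` against the even or odd part of `ε_Y` is again a pure operator on `X`, and
`1 - ε_X` has trace zero against it. And the rank of `1 - q = ε_Y ⊗ ε_X + (1 - ε_Y) ⊗ (1 - ε_X)` is
the right side of the inequality. It says that `2 c(X^(n+1)) - b(X)^(n+1)` is at most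
`(2 c(X) - b(X)) (2 c(X^n) - b(X)^n)`, and `c(X) ≤ b(X) - 1` if `C⁺(X)` is false.
-/

set_option autoImplicit false

open CategoryTheory AlgebraicGeometry

universe u v

namespace Pool.Agent.Results.MP_fd35e1_ag.HalfKimuraFinite

open Pool.Agent.H914 VarClass Obj WeilCohomology Pool.Agent.N103.OC Pool.Agent.TH133.PW
  Pool.Agent.H447 Pool.Agent.N536.HK

/-- **The fifty percent law for the even and odd direct summands of motives.** -/
theorem result {k : Type u} [Field k] {𝒱 : VarClass k} {ops : CycleOps 𝒱}
    (W : WeilCohomology.{u, v} ops) :
    (∀ Y : 𝒱.Obj, IsGreatest (ranksOf W Y) (evenOddDim W Y)) ∧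
    (∀ Y : 𝒱.Obj, SignStd W Y ↔ evenOddDim W Y = cohDim W Y) ∧
    (∀ Y X : 𝒱.Obj, evenOddDim W (Y.prod X) ≤ evenOddDim W Y * evenOddDim W X +
      (cohDim W Y - evenOddDim W Y) * (cohDim W X - evenOddDim W X)) ∧
    (∀ (X : 𝒱.Obj), ∀ n ≥ 1, cohDim W (pw X n) = cohDim W X ^ n) ∧
    (∀ X : 𝒱.Obj, ¬ SignStd W X → ∀ n ≥ 1, HalfAt W X n) ∧
    SignIffHalf W ∧ SignFromRate W := by
  refine ⟨isGreatest W, fun Y => ⟨eq_of_sign, sign_of_eq⟩, evenOddDim_prod_le W,
    fun X n hn => ?_, fun X hC n hn => ?_, signIffHalf W, signFromRate W⟩
  · obtain ⟨n, rfl⟩ := Nat.exists_eq_add_of_le' hn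
    exact cohDim_pw W X n
  · obtain ⟨n, rfl⟩ := Nat.exists_eq_add_of_le' hn
    exact halfAt hC n

end Pool.Agent.Results.MP_fd35e1_ag.HalfKimuraFinite
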