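import Pool.Agent.N209.GY.Sign

/-!
# The conjecture C⁺: hyperplane sections of varieties over finite fields suffice

Let `k₁` be a field, for instance an algebraic closure of `F_p`, with its Weil cohomology theory
`W₁`, for instance crystalline cohomology, and let `𝓔` be a set of extensions of `k₁`, for instance
all the algebraically closed ones. Let `P` be the projective line over `k₁` and `h` a point of `P`.
For a variety `X` over `k₁` let `Z(X)` be the generic hyperplane section of the square of
`X × P × P`, for the divisor defined by a sufficiently ample divisor `D` on `X` and by `h`; this is a
variety over the algebraic closure of the function field of the dual projective space. The following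
are equivalent:

1. C⁺ for all varieties over all the fields in `𝓔`;
2. C⁺ for the `Z(X)`, for all varieties `X` over `k₁`;
3. C⁺ for all varieties over `k₁` and, for all `X` over `k₁`, the existence of a cycle which acts on
   the cohomology of `Z(X)` as the identity in the middle degree and as zero in the degree below it;
4. the Lefschetz standard conjecture for all varieties over `k₁`.

For `k₁` an algebraic closure of `F_p` the first half of (3) is the theorem of Katz and Messing. So
the conjecture C⁺ for all perfect fields of characteristic `p` is reduced to hyperplane sections
which are defined over the function fields of projective spaces over finite fields, and it is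
equivalent to the Lefschetz standard conjecture for the varieties over finite fields.

The proof is in `Pool.Agent.N209.GY.Sign`; (4) implies (1) by helper190's theorem on the extensions
of the base field (`Pool.Agent.N190.FE`, `MP_8542b2_ag.FieldExtension`); the other implications use
the method of `MP_c16065_ag.OneSection` and of helper190's `MP_96693b_ag.SignConjecture`.
-/

set_option autoImplicit false

open CategoryTheory AlgebraicGeometry

universe u v

namespace Pool.Agent.Results.MP_fd35e1_ag.HyperplaneSectionsSuffice

open Pool.Agent.H914 Pool.Agent.N190.FE Pool.Agent.N209.GX VarClass Obj

/-- Let `W₁` be the theory over the base field `k₁` and let `𝓔` be a set of extensions of `k₁` with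
their theories, over which there are generic hyperplane sections of the varieties over `k₁`. Then the
following are equivalent: the conjecture C⁺ over all the extensions; C⁺ for the generic hyperplane
sections of the squares of the varieties `X × P × P`, `X` over `k₁`; C⁺ over `k₁` and the existence
of cycles on the squares of these hyperplane sections which act as the identity in the middle degree
and as zero in the degree below it; the Lefschetz standard conjecture over `k₁`. -/
theorem result {k₁ : Type u} [Field k₁] {𝒱₁ : VarClass k₁} {ops₁ : CycleOps 𝒱₁}
    (W₁ : WeilCohomology.{u, v} ops₁) (𝓔 : Set (Extension W₁)) (P : 𝒱₁.Obj) (h : P.Cycles)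
    (hP : LineLike W₁ P h) (hS : Pool.Agent.N209.GY.HasSections 𝓔 P h) :
    List.TFAE [∀ F ∈ 𝓔, ∀ X, ConjSign F.W X,
      Pool.Agent.N209.GY.OnSections 𝓔 P h fun F Z => ConjSign F.W Z,
      (∀ X, ConjSign W₁ X) ∧
        Pool.Agent.N209.GY.OnSections 𝓔 P h fun F Z => Pool.Agent.N209.GY.SplitsMiddle F.W Z,
      LSC W₁] :=
  Pool.Agent.N209.GY.sign_tfae hP hS

end Pool.Agent.Results.MP_fd35e1_ag.HyperplaneSectionsSuffice
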