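import Pool.Agent.N164.KC.Block
import Pool.Agent.TH133.PW.Ev

/-!
# The sign conjecture in terms of the ranks of two trace forms

Let `X` be smooth and proper of dimension `n`, and `W` a Weil cohomology theory with coefficient field
`K`, for example rational crystalline cohomology. The algebraic cycles of codimension `n` on `X × X` act
on `H(X) = H^+(X) ⊕ H^-(X)` (the sums of the even and of the odd degrees) by operators of degree zero,
the correspondences. Let `r_+` and `r_-` be the ranks of the two forms `(a, b) ↦ tr(a b | H^+(X))` and
`(a, b) ↦ tr(a b | H^-(X))` on the correspondences; the intersection number of `a` and the transpose of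
`b` is their difference.

* The dimension of the space of rational correspondences of degree zero on `X` modulo numerical
  equivalence is at most `r_+ + r_-`.
* It is equal to `r_+ + r_-` if and only if the even Künneth projector of `X` is the class of one cycle
  with rational coefficients, that is, `C⁺(X)` is true.
* `C⁺(X)` is true if and only if some combination `a` of correspondences, with coefficients in `K`, has
  the traces `tr(a b | H^+(X)) = tr(b | H^+(X))` and `tr(a b | H^-(X)) = 0` for all correspondences `b`.

There is no hypothesis on the traces, which need not be rational, hard Lefschetz is not used, and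
homological and numerical equivalence need not agree.

The proof. If the rank of a difference of two forms is the sum of the ranks, then the functionals given
by the two forms can be prescribed independently; this gives a combination `a` as in the third
statement. Then `1 - a` is nilpotent on `H^+(X)`, and `a` is nilpotent on `H^-(X)`, as all powers have
trace zero, and `1 - (1 - a ^ N) ^ N` is the projector for large `N`. A projector which is a
`K`-combination of correspondences is given by a rational cycle (`Pool.Agent.TH133.PW.signStd_of_span`).
-/

set_option autoImplicit false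

open CategoryTheory AlgebraicGeometry

universe u v

namespace Pool.Agent.Results.MP_fd35e1_ag.RankCriterion

open Pool.Agent.H914 Pool.Agent.H447 Pool.Agent.R907 Pool.Agent.TH133.PW VarClass Obj WeilCohomology
open Pool.Agent.N164.KC

section Alg

variable {K : Type*} [Field K] {V : Type*} [AddCommGroup V] [Module K V]

/-- The operator `a` has two traces of the projector `P`, against all operators `b` in `S`:
`tr(a b P) = tr(1 b P)` and `tr(a b (1 - P)) = 0`; that is, the trace of `a b` on the image of `P` is the
trace of `b`, and the trace of `a b` on the kernel of `P` is zero. -/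
def TracesOfProjector (S : Set (Module.End K V)) (P a : Module.End K V) : Prop :=
  formFun P S a = formFun P S 1 ∧ formFun (1 - P) S a = 0

/-- Some linear combination of the operators in `S` has the two traces of the projector onto the sum
of the `gr i`, `i` even. -/
def EvenTracesInSpan (gr : ℕ → Submodule K V) (S : Set (Module.End K V)) : Prop :=
  ∃ a ∈ Submodule.span K S, ∀ P : Module.End K V, IsEvenProj gr P → TracesOfProjector S P a

/-- The sum of the ranks of the forms `tr(a b P)` and `tr(a b (1 - P))` on `S`. -/
noncomputable def twoRanks (P : Module.End K V) (S : Set (Module.End K V)) : ℕ :=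
  formRank P S + formRank (1 - P) S

end Alg

variable {k : Type u} [Field k] {𝒱 : VarClass k} {ops : CycleOps 𝒱}

/-- The dimension of the space of rational correspondences of degree zero modulo numerical equivalence
is at most the sum of the ranks of the forms `tr(a b | H^+(X))` and `tr(a b | H^-(X))` on the
correspondences of degree zero, and it is equal to the sum if and only if the even projector is induced
by a rational cycle. -/
def RankStatement (W : WeilCohomology.{u, v} ops) (X : 𝒱.Obj) : Prop :=
  ∀ P : Module.End W.K (W.H X), IsEvenProj (W.gr X) P →
    numCorrRank ops X ≤ twoRanks P (corrOps W X) ∧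
    (numCorrRank ops X = twoRanks P (corrOps W X) ↔ SignStd W X)

/-- **The sign conjecture in terms of the ranks of two trace forms.** -/
theorem result (W : WeilCohomology.{u, v} ops) (X : 𝒱.Obj) :
    RankStatement W X ∧ (SignStd W X ↔ EvenTracesInSpan (W.gr X) (corrOps W X)) := by
  have hev : ∀ P : Module.End W.K (W.H X), IsEvenProj (W.gr X) P ↔
      P = bproj (W.isInternal X) {j | j % 2 = 0} := by
    intro P
    rw [← isBlock_iff (W.isInternal X)]
    constructor
    · intro h
      refine ⟨fun j hj a ha => ?_, fun j hj a ha => ?_⟩
      · rw [h j a ha, if_pos (Nat.even_iff.2 hj)]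
      · rw [h j a ha, if_neg (fun h' => hj (Nat.even_iff.1 h'))]
    · rintro ⟨h1, h2⟩ j a ha
      by_cases hj : Even j
      · rw [if_pos hj, h1 j (Nat.even_iff.1 hj) a ha]
      · rw [if_neg hj, h2 j (fun h' => hj (Nat.even_iff.2 h')) a ha]
  have hodd : bproj (W.isInternal X) {j | j % 2 = 1} =
      1 - bproj (W.isInternal X) {j | j % 2 = 0} := by
    rw [eq_sub_iff_add_eq', ← bproj_add_compl (W.isInternal X) {j | j % 2 = 0}]
    congr 2
    ext j
    change j % 2 = 1 ↔ ¬ j % 2 = 0
    omega
  have hcompl : bproj (W.isInternal X) {j | j % 2 = 0}ᶜ =
      1 - bproj (W.isInternal X) {j | j % 2 = 0} := by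
    rw [eq_sub_iff_add_eq', bproj_add_compl]
  have hops : corrOps W X = cycleOperators W X X.dim := by
    apply Set.ext
    intro T
    constructor
    · rintro ⟨z, hz, rfl⟩
      exact ⟨z, hz, rfl⟩
    · rintro ⟨z, hz, rfl⟩
      exact ⟨z, hz, rfl⟩
  have hsign : SignStd W X ↔
      bproj (W.isInternal X) {j | j % 2 = 0} ∈ Submodule.span W.K (corrOps W X) := by
    have e01 : SignStd W X ↔ EvenProjInSpan (W.gr X) (cycleOperators W X X.dim) :=
      (sign_tfae W X).out 0 1
    rw [e01, hops]
    constructor
    · rintro ⟨P, hP, hP'⟩
      have h1 : P = bproj (W.isInternal X) {j | j % 2 = 0} := (hev P).1 hP'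
      rw [h1] at hP
      exact hP
    · intro h
      exact ⟨_, h, (hev _).2 rfl⟩
  have hone : bproj (W.isInternal X) {j | j % 2 = 0} ∈ Submodule.span W.K (corrOps W X) →
      bproj (W.isInternal X) {j | j % 2 = 1} ∈ Submodule.span W.K (corrOps W X) := by
    intro h
    rw [hodd]
    exact Submodule.sub_mem _ (Submodule.subset_span one_mem_corrOps) h
  refine ⟨fun P hP => ?_, ?_⟩
  · obtain ⟨h1, h2⟩ := rank_main (W := W) (X := X) (fun j => j % 2) 2
      (fun j _ => Nat.mod_lt _ (by norm_num))
      (fun i _ j _ h => by rw [Nat.even_iff, Nat.even_iff, show i % 2 = j % 2 from h])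
    have hsum : ∑ s ∈ Finset.range 2,
        formRank (bproj (W.isInternal X) {j | j % 2 = s}) (corrOps W X) =
        twoRanks P (corrOps W X) := by
      rw [Finset.sum_range_succ, Finset.sum_range_one, hodd, twoRanks, (hev P).1 hP]
    rw [hsum] at h1 h2
    refine ⟨h1, ?_⟩
    rw [← h2, hsign]
    constructor
    · intro h
      exact h 0 (by norm_num)
    · intro h s hs
      rcases (by omega : s = 0 ∨ s = 1) with rfl | rfl
      · exact h
      · exact hone h
  · rw [hsign]
    constructor
    · intro h
      refine ⟨_, h, fun P hP => ⟨funext fun b => ?_, funext fun b => ?_⟩⟩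
      · obtain ⟨h1, h2⟩ := hasBlockTraces_bproj (W := W) (X := X) {j | j % 2 = 0} b.1 b.2
        rw [(hev P).1 hP]
        unfold formFun
        rw [h1, one_mul]
      · obtain ⟨h1, h2⟩ := hasBlockTraces_bproj (W := W) (X := X) {j | j % 2 = 0} b.1 b.2
        rw [(hev P).1 hP, ← hcompl]
        exact h2
    · rintro ⟨a, ha, h⟩
      obtain ⟨h1, h2⟩ := h _ ((hev _).2 rfl)
      refine bproj_mem_of_traces ha fun b hb => ?_
      rw [hcompl]
      refine ⟨?_, congrFun h2 ⟨b, hb⟩⟩
      have h3 := congrFun h1 ⟨b, hb⟩
      unfold formFun at h3
      rwa [one_mul] at h3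

end Pool.Agent.Results.MP_fd35e1_ag.RankCriterion
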