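import Pool.Agent.N190.UK.Main

/-!
# The sign conjecture in characteristic p and the uniformity of the theorem of Katz and Messing

Let `k₁` be a field, for instance the algebraic closure of `F_p`, with a Weil cohomology theory `W₁`,
for instance crystalline or `ℓ`-adic cohomology, and let `𝓔` be a set of extensions of `k₁`, for
instance the algebraically closed ones, with their cohomology theories. (The sign conjecture `C⁺` for
a variety over a perfect field follows from the one over the algebraic closure, by taking the average
of the conjugates of a cycle.) A variety `X` over a field in `𝓔` is the geometric generic fibre of a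
family `X_t` over a scheme of finite type over `F_p`; for every closed point `t` the sign conjecture
for `X_t` is the theorem of Katz and Messing, but the complexity of the cycles may depend on `t`.

1. For each `X`: `C⁺(X)` holds if and only if the complexity is bounded, if and only if it is bounded
   for a Zariski dense set of `t`, if and only if (zero-one law) for every function `ψ` tending to
   infinity the proportion of the `t` over the `r`-th finite field with a cycle of complexity at most
   `ψ r` does not tend to zero.
2. `C⁺` for all varieties over all fields in `𝓔` is equivalent to the Lefschetz standard conjecture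
   B over `k₁`; to the boundedness (each of the uniform statements of 1.) for all families; and to `C⁺` over `k₁` (for `k₁` the algebraic closure of `F_p`
   this is known) together with the following for all families of varieties of odd dimension `n`:
   there are rational numbers `f i` with `f (n - 1) ≠ f n` such that, for a dense set of `t`, cycles of
   bounded complexity act as multiplication by `f i` on `H^i(X_t)`.
-/

set_option autoImplicit false

universe u v

namespace Pool.Agent.Results.MP_fd35e1_ag.UniformSignProjectors

open Pool.Agent.H914 Pool.Agent.N190.FE Pool.Agent.N209.GX Pool.Agent.N190.UK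

/-- **The sign conjecture over all perfect fields of characteristic p is the Lefschetz standard
conjecture over the closure of the prime field, and the uniformity of the theorem of Katz and
Messing.** -/
theorem result {k₁ : Type u} [Field k₁] {𝒱₁ : VarClass k₁} {ops₁ : CycleOps 𝒱₁}
    (W₁ : WeilCohomology.{u, v} ops₁) (𝓔 : Set (Extension W₁)) (P : 𝒱₁.Obj) (h : P.Cycles)
    (hP : LineLike W₁ P h) (hS : HasSections 𝓔 P h) (hF : HasFamilies 𝓔) :
    (∀ F ∈ 𝓔, ∀ (X : F.𝒱.Obj) (Φ : Family.{u, v}), Φ.HasGenericFibre F.W X →
      List.TFAE [ConjSign F.W X, Φ.Bounded even, Φ.BoundedOnDense even,
        Φ.OftenSmall even]) ∧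
    List.TFAE [∀ F ∈ 𝓔, ∀ X, ConjSign F.W X, LSC W₁,
      ForAllFamilies 𝓔 fun _ Φ => Φ.Bounded even,
      (∀ X, ConjSign W₁ X) ∧ ForAllFamilies 𝓔 fun n Φ => Odd n → Φ.UniformSeparation n] :=
  ⟨fun _ _ _ _ hΦ => one_family hΦ, all_families hP hS hF⟩

end Pool.Agent.Results.MP_fd35e1_ag.UniformSignProjectors
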